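import Pool.Agent.Lib_MP_0fb79d_an.Final

/-!
Answer to Q1 of MP_0fb79d_an: the second `q`-eigenvalue of the union of a ball and of a
sufficiently small disjoint ball is strictly smaller than the second Lusternik-Schnirelmann
eigenvalue, although the first eigenvalue is isolated.
-/

open MeasureTheory Filter Topology Set
open scoped ENNReal ContDiff RealInnerProductSpace

namespace Pool.Agent.Results.MP_0fb79d_an.TwoBalls

open Pool.Agent.MP_0fb79d_an

/-- Let `N ≥ 2`, `1 < q < 2` and let `B_R(a)` be a ball in `ℝ^N`.  If `r > 0` is small enough and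
`Ω = B_R(a) ∪ B_r(b)` with disjoint balls, then `D_0^{1,2}(Ω) → L^q(Ω)` is compact, `λ_1(Ω; q)`
is isolated in the spectrum and
`λ_1(Ω; q) < λ_2(Ω; q) ≤ λ_1(B_R(a); q) < λ_{2,LS}(Ω; q)`. -/
theorem result (N : ℕ) (hN : 2 ≤ N) (q : ℝ) (hq1 : 1 < q) (hq2 : q < 2)
    (a : EuclideanSpace ℝ (Fin N)) (R : ℝ) (hR : 0 < R) :
    ∃ r₀ : ℝ, 0 < r₀ ∧ ∀ r : ℝ, 0 < r → r < r₀ →
      ∀ b : EuclideanSpace ℝ (Fin N), R + r ≤ dist a b →
        CompactEmbedding (Metric.ball a R ∪ Metric.ball b r) q ∧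
        ¬ AccPt (lam1 (Metric.ball a R ∪ Metric.ball b r) q)
          (𝓟 (Spec (Metric.ball a R ∪ Metric.ball b r) q)) ∧
        lam1 (Metric.ball a R ∪ Metric.ball b r) q <
          lam2 (Metric.ball a R ∪ Metric.ball b r) q ∧
        lam2 (Metric.ball a R ∪ Metric.ball b r) q ≤ lam1 (Metric.ball a R) q ∧
        lam1 (Metric.ball a R) q < lamLS (Metric.ball a R ∪ Metric.ball b r) q 2 := by
  have : Nonempty (Fin N) := ⟨⟨0, by omega⟩⟩
  exact two_balls hq1 hq2 a hR

end Pool.Agent.Results.MP_0fb79d_an.TwoBalls
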